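import Mathlib

/-! F1 of the Elliott-Halberstam threshold project (for helper532). -/

namespace Pool.Agent.H233.EH

open Finset Filter

/-- F1. The threshold from the two halves. -/
theorem eh_iff_det (E : ℕ → ℕ → ℝ) (hE0 : ∀ x q, 0 ≤ E x q)
    (hpos : ∀ A : ℝ, 0 < A → ∃ K : ℝ, 0 < K ∧ ∀ᶠ x : ℕ in atTop, ∀ q : ℕ, 1 ≤ q → q ≤ x →
      K * (Real.log (Real.log x) ^ 2 / Real.log (Real.log (Real.log x))) ≤ Real.log (x / q) →
      E x q ≤ x / q * Real.log x ^ (-A))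
    (hneg : ∀ K : ℝ, 0 < K → ∃ A0 : ℝ, 0 < A0 ∧ ∀ᶠ x : ℕ in atTop, ∃ Y : ℕ, 1 ≤ Y ∧
      K * (Real.log (Real.log x) ^ 2 / Real.log (Real.log (Real.log x))) ≤ Real.log (x / Y) ∧
      x * Real.log x ^ (-A0) ≤ ∑ q ∈ Icc 1 Y, E x q)
    (Q : ℕ → ℝ) (hQ : ∀ x : ℕ, 1 ≤ x → 1 ≤ Q x ∧ Q x ≤ x) :
    (∀ A : ℝ, 0 < A → ∃ C : ℝ, ∀ x : ℕ, 2 < x →
      ∑ q ∈ Icc 1 ⌊Q x⌋₊, E x q ≤ C * (x * Real.log x ^ (-A))) ↔
    Tendsto (fun x : ℕ => Real.log (x / Q x) * Real.log (Real.log (Real.log x)) /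
      Real.log (Real.log x) ^ 2) atTop atTop := by
  have hlog : Tendsto (fun x : ℕ => Real.log (x : ℝ)) atTop atTop :=
    Real.tendsto_log_atTop.comp tendsto_natCast_atTop_atTop
  have hll : Tendsto (fun x : ℕ => Real.log (Real.log (x : ℝ))) atTop atTop :=
    Real.tendsto_log_atTop.comp hlog
  have hlll : Tendsto (fun x : ℕ => Real.log (Real.log (Real.log (x : ℝ)))) atTop atTop :=
    Real.tendsto_log_atTop.comp hll
  constructor
  · intro h
    rw [tendsto_atTop]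
    intro b
    have hK0 : 0 < max b 1 := lt_of_lt_of_le one_pos (le_max_right _ _)
    obtain ⟨A0, hA0, hY⟩ := hneg (max b 1) hK0
    obtain ⟨C, hC⟩ := h (A0 + 1) (by linarith)
    filter_upwards [hY, hlog.eventually_gt_atTop C, hlog.eventually_gt_atTop 1,
      hll.eventually_gt_atTop 0, hlll.eventually_gt_atTop 0, eventually_gt_atTop 2]
      with x hx1 hxC hx2 hx3 hx4 hx5
    obtain ⟨Y, hY1, hY2, hY3⟩ := hx1
    by_contra hcon
    have hcon' : Real.log (x / Q x) * Real.log (Real.log (Real.log x)) /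
      Real.log (Real.log x) ^ 2 < max b 1 := lt_of_lt_of_le (not_le.mp hcon) (le_max_left _ _)
    have hll2 : 0 < Real.log (Real.log (x : ℝ)) ^ 2 := by positivity
    have h1 : Real.log (x / Q x) < max b 1 *
        (Real.log (Real.log x) ^ 2 / Real.log (Real.log (Real.log x))) := by
      rw [div_lt_iff₀ hll2] at hcon'
      rw [← mul_div_assoc, lt_div_iff₀ hx4]
      exact hcon'
    have h2 : Real.log (x / Q x) < Real.log (x / Y) := lt_of_lt_of_le h1 hY2
    have hxpos : (0 : ℝ) < x := by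
      have : 0 < x := by omega
      exact_mod_cast this
    obtain ⟨hQ1, hQ2⟩ := hQ x (by omega)
    have hQpos : 0 < Q x := by linarith
    have hYpos : (0 : ℝ) < Y := by exact_mod_cast hY1
    have h3 : (x : ℝ) / Q x < x / Y := by
      by_contra hc
      exact absurd (Real.log_le_log (by positivity) (not_lt.mp hc)) (not_le.mpr h2)
    have h4 : (Y : ℝ) < Q x := by
      rw [div_lt_div_iff₀ hQpos hYpos] at h3
      exact lt_of_mul_lt_mul_left h3 hxpos.le
    have h5 : Y ≤ ⌊Q x⌋₊ := Nat.le_floor h4.le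
    have h6 : ∑ q ∈ Icc 1 Y, E x q ≤ ∑ q ∈ Icc 1 ⌊Q x⌋₊, E x q :=
      Finset.sum_le_sum_of_subset_of_nonneg (Finset.Icc_subset_Icc_right h5)
        (fun i _ _ => hE0 x i)
    have h7 := hC x hx5
    have h8 : (x : ℝ) * Real.log x ^ (-A0) ≤ C * (x * Real.log x ^ (-(A0 + 1))) :=
      hY3.trans (h6.trans h7)
    have hL0 : 0 < Real.log (x : ℝ) := by linarith
    have h9 : Real.log (x : ℝ) ^ (-A0) = Real.log x * Real.log (x : ℝ) ^ (-(A0 + 1)) := by
      rw [show -A0 = 1 + (-(A0 + 1)) by ring, Real.rpow_add hL0, Real.rpow_one]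
    have hp : 0 < (x : ℝ) * Real.log (x : ℝ) ^ (-(A0 + 1)) :=
      mul_pos hxpos (Real.rpow_pos_of_pos hL0 _)
    rw [h9] at h8
    have h10 : Real.log (x : ℝ) * ((x : ℝ) * Real.log (x : ℝ) ^ (-(A0 + 1))) ≤
        C * ((x : ℝ) * Real.log (x : ℝ) ^ (-(A0 + 1))) := by
      calc _ = (x : ℝ) * (Real.log x * Real.log (x : ℝ) ^ (-(A0 + 1))) := by ring
        _ ≤ _ := h8
    have h11 := le_of_mul_le_mul_right h10 hp
    linarith
  · intro h A hA
    obtain ⟨K, hK, hEv⟩ := hpos (A + 2) (by linarith)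
    have hev : ∀ᶠ x : ℕ in atTop,
        ∑ q ∈ Icc 1 ⌊Q x⌋₊, E x q ≤ x * Real.log x ^ (-A) := by
      filter_upwards [hEv, h.eventually_ge_atTop K, hlog.eventually_gt_atTop 2,
        hll.eventually_gt_atTop 0, hlll.eventually_gt_atTop 0, eventually_gt_atTop 2]
        with x hx1 hxK hx2 hx3 hx4 hx5
      have hxpos : (0 : ℝ) < x := by
        have : 0 < x := by omega
        exact_mod_cast this
      obtain ⟨hQ1, hQ2⟩ := hQ x (by omega)
      have hQpos : 0 < Q x := by linarith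
      have hL0 : 0 < Real.log (x : ℝ) := by linarith
      have hll2 : 0 < Real.log (Real.log (x : ℝ)) ^ 2 := by positivity
      have h1 : K * (Real.log (Real.log x) ^ 2 / Real.log (Real.log (Real.log x))) ≤
          Real.log (x / Q x) := by
        rw [le_div_iff₀ hll2] at hxK
        rw [← mul_div_assoc, div_le_iff₀ hx4]
        exact hxK
      have h2 : ∀ q ∈ Icc 1 ⌊Q x⌋₊, E x q ≤ x * Real.log x ^ (-(A + 2)) * (q : ℝ)⁻¹ := by
        intro q hq
        rw [Finset.mem_Icc] at hq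
        have hqQ : (q : ℝ) ≤ Q x := (Nat.le_floor_iff hQpos.le).mp hq.2
        have hq0 : (0 : ℝ) < q := by exact_mod_cast hq.1
        have hqx : q ≤ x := by
          have : (q : ℝ) ≤ x := hqQ.trans hQ2
          exact_mod_cast this
        have h3 : Real.log (x / Q x) ≤ Real.log (x / q) := by
          apply Real.log_le_log (by positivity)
          exact div_le_div_of_nonneg_left hxpos.le hq0 hqQ
        have h4 := hx1 q hq.1 hqx (h1.trans h3)
        calc E x q ≤ _ := h4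
          _ = _ := by
            rw [div_eq_mul_inv]
            ring
      have h3 : ∑ q ∈ Icc 1 ⌊Q x⌋₊, (q : ℝ)⁻¹ ≤ 1 + Real.log x := by
        have h4 : ((harmonic ⌊Q x⌋₊ : ℚ) : ℝ) = ∑ q ∈ Icc 1 ⌊Q x⌋₊, (q : ℝ)⁻¹ := by
          rw [harmonic_eq_sum_Icc]
          push_cast
          rfl
        rw [← h4]
        refine (harmonic_le_one_add_log _).trans ?_
        have h5 : (1 : ℝ) ≤ ⌊Q x⌋₊ := by
          have : 1 ≤ ⌊Q x⌋₊ := Nat.le_floor (by exact_mod_cast hQ1)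
          exact_mod_cast this
        have h6 : ((⌊Q x⌋₊ : ℕ) : ℝ) ≤ x := (Nat.floor_le hQpos.le).trans hQ2
        have h7 := Real.log_le_log (by linarith) h6
        linarith
      have hLp : 0 < Real.log (x : ℝ) ^ (-(A + 2)) := Real.rpow_pos_of_pos hL0 _
      have hsplit : Real.log (x : ℝ) ^ (-A) = Real.log (x : ℝ) ^ (-(A + 2)) * Real.log x ^ 2 := by
        rw [show -A = -(A + 2) + 2 by ring, Real.rpow_add hL0]
        congr 1
        exact Real.rpow_natCast _ 2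
      calc ∑ q ∈ Icc 1 ⌊Q x⌋₊, E x q
          ≤ ∑ q ∈ Icc 1 ⌊Q x⌋₊, x * Real.log x ^ (-(A + 2)) * (q : ℝ)⁻¹ := Finset.sum_le_sum h2
        _ = x * Real.log x ^ (-(A + 2)) * ∑ q ∈ Icc 1 ⌊Q x⌋₊, (q : ℝ)⁻¹ := by
            rw [Finset.mul_sum]
        _ ≤ x * Real.log x ^ (-(A + 2)) * (1 + Real.log x) :=
            mul_le_mul_of_nonneg_left h3 (by positivity)
        _ ≤ x * Real.log x ^ (-(A + 2)) * Real.log x ^ 2 := by
            apply mul_le_mul_of_nonneg_left _ (by positivity)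
            nlinarith
        _ = x * Real.log x ^ (-A) := by rw [hsplit]; ring
    obtain ⟨x0, hx0⟩ := eventually_atTop.mp hev
    have hnn : ∀ x : ℕ, 0 ≤ (∑ q ∈ Icc 1 ⌊Q x⌋₊, E x q) / (x * Real.log x ^ (-A)) := by
      intro x
      apply div_nonneg (Finset.sum_nonneg fun q _ => hE0 x q)
      apply mul_nonneg (Nat.cast_nonneg _)
      exact Real.rpow_nonneg (Real.log_natCast_nonneg x) _
    refine ⟨1 + ∑ x ∈ range x0, (∑ q ∈ Icc 1 ⌊Q x⌋₊, E x q) / (x * Real.log x ^ (-A)), ?_⟩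
    intro x hx
    have hxpos : (0 : ℝ) < x := by
      have : 0 < x := by omega
      exact_mod_cast this
    have hL0 : 0 < Real.log (x : ℝ) := by
      apply Real.log_pos
      have : 1 < x := by omega
      exact_mod_cast this
    have hp : 0 < (x : ℝ) * Real.log (x : ℝ) ^ (-A) :=
      mul_pos hxpos (Real.rpow_pos_of_pos hL0 _)
    have hS : 0 ≤ ∑ x ∈ range x0, (∑ q ∈ Icc 1 ⌊Q x⌋₊, E x q) / (x * Real.log x ^ (-A)) :=
      Finset.sum_nonneg fun x _ => hnn x
    rcases le_or_gt x0 x with h0 | h0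
    · have h1 := hx0 x h0
      nlinarith
    · have h1 : (∑ q ∈ Icc 1 ⌊Q x⌋₊, E x q) / (x * Real.log x ^ (-A)) ≤
          ∑ x ∈ range x0, (∑ q ∈ Icc 1 ⌊Q x⌋₊, E x q) / (x * Real.log x ^ (-A)) :=
        Finset.single_le_sum (fun y _ => hnn y) (Finset.mem_range.mpr h0)
      have h2 : (∑ q ∈ Icc 1 ⌊Q x⌋₊, E x q) / (x * Real.log x ^ (-A)) ≤
          1 + ∑ x ∈ range x0, (∑ q ∈ Icc 1 ⌊Q x⌋₊, E x q) / (x * Real.log x ^ (-A)) := by
        linarith
      rwa [div_le_iff₀ hp] at h2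

end Pool.Agent.H233.EH
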